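import Pool.Agent.H30.VM.TargetsB

/-!
# MP_70ba79_ag, module EVT of the board `vmp_modules`
-/

set_option autoImplicit false

namespace Pool.Agent.H50.VMP

open MvPolynomial SC Pool.Agent.H27.LV Pool.Agent.H17.VG Pool.Agent.H30.VM
open Pool.Agent.H17.CI (Tup IlT PQT TxT frmT upT RatT)

private theorem eval_dir {K : Type} [Field K] {n : ℕ} (x w : Fin (n + 1) → K)
    (G : MvPolynomial (Fin (n + 1)) K) :
    eval x (dir w G) = ∑ j, w j * eval x (pderiv j G) := by
  simp [dir, map_sum]

private theorem opF_zeroMat {R K : Type} [Field R] [Field K] [Algebra R K] {n : ℕ}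
    (θ : Derivation R K K) (G : MvPolynomial (Fin (n + 1)) K) :
    opF ((θ, 0) : Op R K n) G = cD θ G := by
  simp [opF]

theorem pf_EVT (hEV : Pool.Agent.H17.VG.T_EV) (hRS : Pool.Agent.H17.VG.T_RS) :
    Pool.Agent.H30.VM.T_EVT := by
  intro R K _ _ _ _ n ι i₀ e F D Z x hS hP
  have hxT : x ∈ TxT Z F x := by
    intro i hi
    rw [← eval_dir]
    obtain ⟨-, -, -, -, -, -, -, -, -, h, -⟩ := hRS K n (e i + 1) (F i) 0 0 0 0 x 0 0 0
    rw [h (hS.homog i), (hP.on i).2 hi, mul_zero]
  have hval : ∀ (τ : Op R K n) (l : ι → K) (G : Tup ι K n), Sym i₀ F τ l G →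
      (∀ i, τ.1 (eval x (F i)) = eval x (G i) - l i * eval x (F i) +
        eval x (dir (opV τ x) (F i))) := by
    intro τ l G h i
    rw [hEV R K n τ (F i) x, ← h.2 i]
    simp
  have hDx : (fun i => D (x i)) ∈ TxT Z F x := by
    intro i hi
    rw [← eval_dir]
    have h := hEV R K n ((D, 0) : Op R K n) (F i) x
    rw [(hP.on i).2 hi, opF_zeroMat, hS.base i] at h
    have h2 : opV ((D, 0) : Op R K n) x = fun i => D (x i) := by
      funext j
      simp [opV]
    rw [h2] at h
    simpa using h.symm
  have htan : ∀ (τ : Op R K n) (l : ι → K) (G : Tup ι K n), Sym i₀ F τ l G →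
      (∀ i ∈ Z, eval x (G i) = 0) → opV τ x ∈ TxT Z F x := by
    intro τ l G h hG i hi
    rw [← eval_dir]
    have h1 := hval τ l G h i
    rw [(hP.on i).2 hi, hG i hi] at h1
    simpa using h1.symm
  refine ⟨fun τ l G h => ⟨hval τ l G h, htan τ l G h⟩, hxT, hDx, ?_, ?_⟩
  · classical
    let N : Matrix Z (Fin (n + 1)) K := Matrix.of fun i j => eval x (pderiv j (F i))
    have hli : LinearIndependent K N.row := hP.grad
    have hrank : N.rank = Z.card := by
      rw [hli.rank_matrix]
      simp
    have hker : LinearMap.ker N.mulVecLin = TxT Z F x := by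
      ext w
      rw [LinearMap.mem_ker, Matrix.mulVecLin_apply]
      constructor
      · intro h i hi
        have := congrFun h ⟨i, hi⟩
        simp only [Matrix.mulVec, dotProduct, N, Matrix.of_apply, Pi.zero_apply] at this
        rw [← this]
        exact Finset.sum_congr rfl fun j _ => mul_comm _ _
      · intro h
        funext i
        have := h i.1 i.2
        simp only [Matrix.mulVec, dotProduct, N, Matrix.of_apply, Pi.zero_apply]
        rw [← this]
        exact Finset.sum_congr rfl fun j _ => mul_comm _ _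
    have h := LinearMap.finrank_range_add_finrank_ker N.mulVecLin
    rw [hker] at h
    have h2 : Module.finrank K (LinearMap.range N.mulVecLin) = Z.card := hrank
    rw [h2] at h
    simp only [Module.finrank_fintype_fun_eq_card, Fintype.card_fin] at h
    omega
  · intro W hW
    refine Submodule.span_le.2 ?_
    rintro w (⟨τ, l, G, hGW, hs, rfl⟩ | hw)
    · exact htan τ l G hs (hW G hGW)
    · rw [Set.mem_singleton_iff] at hw
      rw [hw]
      exact hxT

end Pool.Agent.H50.VMP
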