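import Pool.Agent.H65.CI.STT
import Pool.Agent.H30.VM.TargetsB
import Pool.Agent.H30.VM.TargetsC

/-!
# MP_70ba79_ag, module STT of the board `vmp_modules`
-/

set_option autoImplicit false

namespace Pool.Agent.H50.VMP

open MvPolynomial SC Pool.Agent.H27.LV Pool.Agent.H17.VG Pool.Agent.H30.VM
open Pool.Agent.H17.CI (Tup IlT PQT TxT frmT upT RatT)

theorem pf_STT (hKP : Pool.Agent.H17.VG.T_KP) (hBT : Pool.Agent.H30.VM.T_BT)
    (hBIT : Pool.Agent.H30.VM.T_BIT) (hTPT : Pool.Agent.H30.VM.T_TPT)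
    (hEVT : Pool.Agent.H30.VM.T_EVT) (hCT : Pool.Agent.H17.CI.T_CT) :
    Pool.Agent.H30.VM.T_STT := by
  classical
  intro R k K _ _ _ _ _ _ _ n ι _ i₀ e F D Z x hi₀ hZn hne hS hP hE
  have hx : x ≠ 0 := Pool.Agent.H90.VG.indep_ne hP.dx
  obtain ⟨-, -, -, hfr, hle⟩ := hEVT R K n ι i₀ e F D Z x hS hP
  obtain ⟨B, hBd⟩ := hBIT R K n ι i₀ e F D Z x hS hP
  set N := (Fin (n + 1) → K) ⧸ Submodule.span K {x, fun i => D (x i)} with hN
  set E := (Σ i, Mon (n + 1) (e i)) → K with hEdef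
  -- spanning
  have hspan : Module.finrank K (Submodule.span K {w | ∃ v q, w = B v q}) + 1 = n - Z.card := by
    have h1 := hBd Set.univ
    have h2 : {G : Tup ι K n | ∃ p ∈ (Set.univ : Set (Vx x × E)),
        G = fun i => lin p.1.1 * frmT p.2 i} = {G | ∃ (ξ : Fin (n + 1) → K) (q : E),
        ∑ i, ξ i * x i = 0 ∧ G = fun i => lin ξ * frmT q i} := by
      ext G
      constructor
      · rintro ⟨⟨ξ, q⟩, _, rfl⟩
        exact ⟨ξ.1, q, ξ.2, rfl⟩
      · rintro ⟨ξ, q, h, rfl⟩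
        exact ⟨⟨⟨ξ, h⟩, q⟩, trivial, rfl⟩
    have h3 : {w | ∃ p ∈ (Set.univ : Set (Vx x × E)), w = B p.1 p.2} =
        {w | ∃ v q, w = B v q} := by
      ext w
      constructor
      · rintro ⟨⟨v, q⟩, _, rfl⟩
        exact ⟨v, q, rfl⟩
      · rintro ⟨v, q, rfl⟩
        exact ⟨⟨v, q⟩, trivial, rfl⟩
    rw [h2, h3, hTPT R K n ι i₀ e F D Z x hi₀ hS hP] at h1
    omega
  -- hyperplanes
  have hhyp : ∀ φ : Vx x →ₗ[K] K, φ ≠ 0 →
      n - Z.card ≤ Module.finrank K (Submodule.span K {w | ∃ v q, φ v = 0 ∧ w = B v q}) + 1 +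
        (∑ i, (e i + 1) - n - 1) := by
    intro φ hφ
    obtain ⟨ψ, hψ⟩ := LinearMap.exists_extend φ
    set y : Fin (n + 1) → K := fun i => ψ (Pi.single i 1) with hy
    have hψy : ∀ ξ, ψ ξ = ∑ i, ξ i * y i := by
      intro ξ
      conv_lhs => rw [pi_eq_sum_univ' ξ]
      rw [map_sum]
      refine Finset.sum_congr rfl fun i _ => ?_
      rw [map_smul, smul_eq_mul]
    have hφy : ∀ v : Vx x, φ v = ∑ i, v.1 i * y i := by
      intro v
      rw [← hψ, LinearMap.comp_apply, hψy]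
      rfl
    have hxy : Indep x y := by
      unfold Indep
      rw [LinearIndependent.pair_iff' hx]
      intro a ha
      apply hφ
      ext v
      rw [hφy, LinearMap.zero_apply, ← ha]
      have h0 : ∑ i, v.1 i * x i = 0 := v.2
      calc ∑ i, v.1 i * (a • x) i = a * ∑ i, v.1 i * x i := by
            rw [Finset.mul_sum]
            refine Finset.sum_congr rfl fun i _ => ?_
            rw [Pi.smul_apply, smul_eq_mul]; ring
        _ = 0 := by rw [h0, mul_zero]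
    have h1 := hBd {p | φ p.1 = 0}
    have h3 : {w | ∃ p ∈ {p : Vx x × E | φ p.1 = 0}, w = B p.1 p.2} =
        {w | ∃ v q, φ v = 0 ∧ w = B v q} := by
      ext w
      constructor
      · rintro ⟨⟨v, q⟩, h, rfl⟩
        exact ⟨v, q, h, rfl⟩
      · rintro ⟨v, q, h, rfl⟩
        exact ⟨⟨v, q⟩, h, rfl⟩
    rw [Pool.Agent.H65.CI.ilT_eq e x y φ hφy, h3] at h1
    have h4 : UtT R i₀ F x (IlT e x y) ≤ TxT Z F x := by
      refine hle _ ?_
      intro G hG i _
      unfold IlT at hG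
      rw [Submodule.mem_pi] at hG
      have h5 : Il (e i) x y ≤ LinearMap.ker (aeval (R := K) x).toLinearMap := by
        unfold Il
        rw [Submodule.span_le]
        rintro G' ⟨ξ, Q, h, h', hQ, rfl⟩
        rw [SetLike.mem_coe, LinearMap.mem_ker]
        show aeval x (lin ξ * Q) = 0
        rw [map_mul]
        have h6 : aeval x (lin ξ) = ∑ i, ξ i * x i := by
          simp [lin]
        rw [h6, h, zero_mul]
      have h7 := h5 (hG i (Set.mem_univ i))
      rw [LinearMap.mem_ker] at h7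
      have h8 : aeval x (G i) = eval x (G i) := by
        rw [MvPolynomial.aeval_eq_eval]
      rw [← h8]
      exact h7
    have h5 := Submodule.finrank_mono h4
    obtain ⟨m, hm⟩ := Nat.exists_eq_add_of_le h5
    have hm2 : Module.finrank K (UtT R i₀ F x (IlT e x y)) + m + Z.card = n + 1 := by omega
    by_cases hm3 : n + 1 ≤ 2 * m + Z.card
    · have := hBT R K n ι i₀ e F D Z x y hi₀ hS hP hxy (hE y hxy) m hm2 hm3
      omega
    · omega
  obtain ⟨Q, hQ⟩ := hCT K (Vx x) E N B (n - Z.card) (∑ i, (e i + 1) - n - 1) hspan (by omega) hhyp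
  obtain ⟨Q', hQ'⟩ := hKP k K (Vx x) N (Fin (∑ i, (e i + 1) - n - 2)) (Σ i, Mon (n + 1) (e i)) B Q
    _ le_rfl
  refine ⟨Q', ?_⟩
  have hup : ∀ (q : (Σ i, Mon (n + 1) (e i)) → k),
      upT K (frmT q) = frmT (fun β => algebraMap k K (q β)) := by
    intro q
    funext i
    exact Pool.Agent.H90.VG.up_frm _
  have h1 := hBd {p | ∃ j, p.2 = fun β => algebraMap k K (Q' j β)}
  have h2 : Submodule.span K {G : Tup ι K n | ∃ p ∈ {p : Vx x × E |
      ∃ j, p.2 = fun β => algebraMap k K (Q' j β)}, G = fun i => lin p.1.1 * frmT p.2 i} =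
      PQT x fun j => upT K (frmT (Q' j)) := by
    unfold PQT
    congr 1
    ext G
    constructor
    · rintro ⟨⟨ξ, q⟩, ⟨j, hj⟩, rfl⟩
      refine ⟨ξ.1, j, ξ.2, ?_⟩
      beta_reduce
      rw [hup]
      simp only at hj
      rw [hj]
    · rintro ⟨ξ, j, h, rfl⟩
      refine ⟨⟨⟨ξ, h⟩, fun β => algebraMap k K (Q' j β)⟩, ⟨j, rfl⟩, ?_⟩
      beta_reduce
      rw [hup]
  have h3 : Submodule.span K {w | ∃ p ∈ {p : Vx x × E |
      ∃ j, p.2 = fun β => algebraMap k K (Q' j β)}, w = B p.1 p.2} =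
      im B (fun i j => algebraMap k K (Q' i j)) := by
    unfold im
    congr 1
    ext w
    constructor
    · rintro ⟨⟨v, q⟩, ⟨j, hj⟩, rfl⟩
      simp only at hj
      exact ⟨v, j, by rw [hj]⟩
    · rintro ⟨v, j, rfl⟩
      exact ⟨⟨v, fun β => algebraMap k K (Q' j β)⟩, ⟨j, rfl⟩, rfl⟩
  rw [h2, h3] at h1
  have h5 := le_trans hQ (le_trans (Nat.add_le_add_right hQ' 2) (le_of_eq h1.symm))
  omega

end Pool.Agent.H50.VMP
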